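import Mathlib

/-!
# The order of magnitude of the largest `k,d`-chromatic number of graphs of maximum degree `Δ`

For all `2 ≤ k ≤ d + 1` the largest `k,d`-chromatic number of a finite graph with maximum degree
at most `Δ` has order of magnitude `Δ ^ ⌊d / (k - 1)⌋`.

Upper bound: colour the vertices so that vertices of one colour have distance more than
`⌊d / (k - 1)⌋`. Lower bound: Hamming graphs.
-/

set_option autoImplicit false

open Filter Asymptotics

namespace Pool.Agent.Results.MP_70a435_co.OrderOfMagnitude

variable {V : Type}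

/-- A set `S` of vertices is `k,d`-independent if every shortest path of length at most `d`
contains fewer than `k` vertices of `S`. (A walk whose length is the distance of its ends is
the same thing as a shortest path.) -/
def KDIndep (G : SimpleGraph V) (k d : ℕ) (S : Set V) : Prop :=
  ∀ (u v : V) (p : G.Walk u v), p.length = G.dist u v → p.length ≤ d →
    {x | x ∈ p.support ∧ x ∈ S}.ncard < k

/-- A colouring is `k,d`-proper if all its colour classes are `k,d`-independent. -/
def KDProper (G : SimpleGraph V) (k d : ℕ) {c : ℕ} (f : V → Fin c) : Prop :=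
  ∀ i, KDIndep G k d (f ⁻¹' {i})

/-- The `k,d`-chromatic number: the least number of colours in a `k,d`-proper colouring. -/
noncomputable def chi (G : SimpleGraph V) (k d : ℕ) : ℕ :=
  sInf {c : ℕ | ∃ f : V → Fin c, KDProper G k d f}

/-- The `k,d`-chromatic numbers of the finite graphs, with at least one vertex, of maximum degree
at most `Δ`. -/
def values (k d Δ : ℕ) : Set ℕ :=
  {c | ∃ (n : ℕ) (G : SimpleGraph (Fin (n + 1))),
    (∀ v, (G.neighborSet v).ncard ≤ Δ) ∧ chi G k d = c}

/-- The largest `k,d`-chromatic number of a finite graph of maximum degree at most `Δ`. -/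
noncomputable def F (k d Δ : ℕ) : ℕ := sSup (values k d Δ)

/-! ### Upper bound -/

/-- Greedy colouring. -/
lemma greedy [Fintype V] (H : SimpleGraph V) (c : ℕ)
    (h : ∀ v, (H.neighborSet v).ncard < c) : ∃ f : V → Fin c, ∀ u w, H.Adj u w → f u ≠ f w := by
  classical
  rcases isEmpty_or_nonempty V with hV | ⟨⟨v0⟩⟩
  · exact ⟨fun v => isEmptyElim v, fun u => isEmptyElim u⟩
  have hc : 0 < c := lt_of_le_of_lt (Nat.zero_le _) (h v0)
  have key : ∀ s : Finset V, ∃ f : V → Fin c, ∀ u ∈ s, ∀ w ∈ s, H.Adj u w → f u ≠ f w := by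
    intro s
    induction s using Finset.induction_on with
    | empty => exact ⟨fun _ => ⟨0, hc⟩, by simp⟩
    | insert v s hv ih =>
      obtain ⟨f, hf⟩ := ih
      have h1 : ∃ i : Fin c, i ∉ (s.filter (fun w => H.Adj v w)).image f := by
        by_contra hcon
        push Not at hcon
        have h2 : (Finset.univ : Finset (Fin c)) ⊆ (s.filter (fun w => H.Adj v w)).image f :=
          fun i _ => hcon i
        have h3 := Finset.card_le_card h2
        rw [Finset.card_univ, Fintype.card_fin] at h3
        have h4 : (s.filter (fun w => H.Adj v w)).card ≤ (H.neighborSet v).ncard := by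
          rw [← Set.ncard_coe_finset]
          apply Set.ncard_le_ncard _ (Set.toFinite _)
          intro w hw
          simp only [Finset.coe_filter, Set.mem_ofPred_eq] at hw
          exact hw.2
        have h5 := Finset.card_image_le (s := s.filter (fun w => H.Adj v w)) (f := f)
        have := h v
        omega
      obtain ⟨i, hi⟩ := h1
      refine ⟨Function.update f v i, ?_⟩
      intro u hu w hw huw
      rw [Finset.mem_insert] at hu hw
      have hne : u ≠ w := H.ne_of_adj huw
      by_cases hu' : u = v
      · subst hu'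
        have hw' : w ≠ u := hne.symm
        rw [Function.update_self, Function.update_of_ne hw']
        intro hcon
        apply hi
        rw [Finset.mem_image]
        exact ⟨w, Finset.mem_filter.mpr ⟨hw.resolve_left hw', huw⟩, hcon.symm⟩
      · by_cases hw' : w = v
        · subst hw'
          rw [Function.update_self, Function.update_of_ne hu']
          intro hcon
          apply hi
          rw [Finset.mem_image]
          exact ⟨u, Finset.mem_filter.mpr ⟨hu.resolve_left hu', huw.symm⟩, hcon⟩
        · rw [Function.update_of_ne hu', Function.update_of_ne hw']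
          exact hf u (hu.resolve_left hu') w (hw.resolve_left hw') huw
  obtain ⟨f, hf⟩ := key Finset.univ
  exact ⟨f, fun u w => hf u (Finset.mem_univ _) w (Finset.mem_univ _)⟩

/-- The ball of radius `m`. -/
def ball (G : SimpleGraph V) (m : ℕ) (v : V) : Set V := {w | ∃ p : G.Walk v w, p.length ≤ m}

lemma ball_card [Fintype V] (G : SimpleGraph V) (D : ℕ) (h : ∀ v, (G.neighborSet v).ncard ≤ D)
    (m : ℕ) (v : V) : (ball G m v).ncard ≤ (D + 1) ^ m := by
  classical
  induction m generalizing v with
  | zero =>
    have : ball G 0 v ⊆ {v} := by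
      rintro w ⟨p, hp⟩
      have h0 : p.length = 0 := by omega
      exact (SimpleGraph.Walk.eq_of_length_eq_zero h0).symm
    calc (ball G 0 v).ncard ≤ ({v} : Set V).ncard := Set.ncard_le_ncard this (Set.toFinite _)
      _ = 1 := Set.ncard_singleton v
      _ = _ := by simp
  | succ m ih =>
    have hsub : ball G (m + 1) v ⊆
        ⋃ u ∈ (insert v (G.neighborSet v) : Set V), ball G m u := by
      rintro w ⟨p, hp⟩
      simp only [Set.mem_iUnion]
      cases p with
      | nil => exact ⟨v, Set.mem_insert _ _, SimpleGraph.Walk.nil, by simp⟩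
      | cons hadj q =>
        rename_i x
        refine ⟨x, Set.mem_insert_of_mem _ hadj, q, ?_⟩
        rw [SimpleGraph.Walk.length_cons] at hp
        omega
    have hfin : (insert v (G.neighborSet v) : Set V).Finite := Set.toFinite _
    calc (ball G (m + 1) v).ncard
        ≤ (⋃ u ∈ (insert v (G.neighborSet v) : Set V), ball G m u).ncard :=
          Set.ncard_le_ncard hsub (Set.toFinite _)
      _ = (⋃ u ∈ hfin.toFinset, ball G m u).ncard := by
          congr 1
          ext w
          simp only [Set.mem_iUnion, Set.Finite.mem_toFinset]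
      _ ≤ ∑ u ∈ hfin.toFinset, (ball G m u).ncard := Finset.set_ncard_biUnion_le _ _
      _ ≤ ∑ _u ∈ hfin.toFinset, (D + 1) ^ m := Finset.sum_le_sum fun u _ => ih u
      _ = hfin.toFinset.card * (D + 1) ^ m := by rw [Finset.sum_const, smul_eq_mul]
      _ ≤ (D + 1) * (D + 1) ^ m := by
          apply Nat.mul_le_mul_right
          rw [← Set.ncard_eq_toFinset_card _ hfin]
          exact le_trans (Set.ncard_insert_le _ _) (by have := h v; omega)
      _ = (D + 1) ^ (m + 1) := by rw [pow_succ]; ring

/-- The power of a graph. -/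
def power (G : SimpleGraph V) (m : ℕ) : SimpleGraph V where
  Adj u w := u ≠ w ∧ ∃ p : G.Walk u w, p.length ≤ m
  symm := ⟨fun u w ⟨h1, p, hp⟩ => ⟨h1.symm, p.reverse, by simpa using hp⟩⟩
  loopless := ⟨fun u h => h.1 rfl⟩

/-- A proper colouring of the power `G ^ ⌊d / (k - 1)⌋` is `k,d`-proper. -/
lemma indep_of_power [Fintype V] (G : SimpleGraph V) (k d : ℕ) (hk : 2 ≤ k) (S : Set V)
    (hS : ∀ u ∈ S, ∀ w ∈ S, ¬ (power G (d / (k - 1))).Adj u w) : KDIndep G k d S := by
  classical
  intro u v p hp hpd
  set m := d / (k - 1) with hm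
  have hpath := p.isPath_of_length_eq_dist hp
  -- indices of the vertices of `S`
  set I : Finset ℕ := (Finset.range (p.length + 1)).filter (fun i => p.getVert i ∈ S) with hI
  have h1 : {x | x ∈ p.support ∧ x ∈ S}.ncard ≤ I.card := by
    have : {x | x ∈ p.support ∧ x ∈ S} ⊆ ((I.image p.getVert : Finset V) : Set V) := by
      rintro x ⟨hx, hxS⟩
      rw [SimpleGraph.Walk.mem_support_iff_exists_getVert] at hx
      obtain ⟨i, hi, hil⟩ := hx
      rw [Finset.mem_coe, Finset.mem_image]
      refine ⟨i, ?_, hi⟩
      rw [hI, Finset.mem_filter, Finset.mem_range, hi]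
      exact ⟨by omega, hxS⟩
    calc {x | x ∈ p.support ∧ x ∈ S}.ncard ≤ ((I.image p.getVert : Finset V) : Set V).ncard :=
          Set.ncard_le_ncard this (Set.toFinite _)
      _ = (I.image p.getVert).card := Set.ncard_coe_finset _
      _ ≤ I.card := Finset.card_image_le
  have hclose : ∀ i ∈ I, ∀ j ∈ I, i < j → m < j - i := by
    intro i hi j hj hij
    rw [hI, Finset.mem_filter, Finset.mem_range] at hi hj
    by_contra hcon
    push Not at hcon
    apply hS _ hi.2 _ hj.2
    refine ⟨?_, ?_⟩
    · intro heq
      have := hpath.getVert_injOn (by simp; omega) (by simp; omega) heq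
      omega
    · have e : (p.drop i).getVert (j - i) = p.getVert j := by
        rw [SimpleGraph.Walk.drop_getVert]
        congr 1
        omega
      refine ⟨((p.drop i).take (j - i)).copy rfl e, ?_⟩
      rw [SimpleGraph.Walk.length_copy, SimpleGraph.Walk.take_length]
      omega
  have h2 : I.card ≤ k - 1 := by
    have hinj : Set.InjOn (fun i => i / (m + 1)) (I : Set ℕ) := by
      intro i hi j hj hij
      simp only at hij
      rw [Finset.mem_coe] at hi hj
      by_contra hne
      have hpos : 0 < m + 1 := Nat.succ_pos m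
      have hi1 := Nat.div_add_mod i (m + 1)
      have hj1 := Nat.div_add_mod j (m + 1)
      have hi2 := Nat.mod_lt i hpos
      have hj2 := Nat.mod_lt j hpos
      rw [hij] at hi1
      rcases lt_or_gt_of_ne hne with hlt | hlt
      · have := hclose i hi j hj hlt
        omega
      · have := hclose j hj i hi hlt
        omega
    have hmaps : ∀ i ∈ I, i / (m + 1) ∈ Finset.range (k - 1) := by
      intro i hi
      rw [hI, Finset.mem_filter, Finset.mem_range] at hi
      have h3 : d < (k - 1) * (m + 1) := by
        rw [hm]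
        have := Nat.lt_mul_div_succ d (show 0 < k - 1 by omega)
        simpa using this
      rw [Finset.mem_range, Nat.div_lt_iff_lt_mul (show 0 < m + 1 from Nat.succ_pos m)]
      omega
    have := Finset.card_le_card_of_injOn _ hmaps hinj
    simpa using this
  omega

lemma chi_le [Fintype V] (G : SimpleGraph V) (k d D : ℕ) (hk : 2 ≤ k)
    (h : ∀ v, (G.neighborSet v).ncard ≤ D) : chi G k d ≤ (D + 1) ^ (d / (k - 1)) := by
  classical
  obtain ⟨f, hf⟩ := greedy (power G (d / (k - 1))) ((D + 1) ^ (d / (k - 1))) (by
    intro v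
    refine lt_of_lt_of_le ?_ (ball_card G D h (d / (k - 1)) v)
    apply Set.ncard_lt_ncard _ (Set.toFinite _)
    constructor
    · rintro w ⟨_, hw⟩
      exact hw
    · intro hcon
      have hv : v ∈ ball G (d / (k - 1)) v := ⟨SimpleGraph.Walk.nil, by simp⟩
      exact (hcon hv).1 rfl)
  apply Nat.sInf_le
  refine ⟨f, fun i => ?_⟩
  apply indep_of_power G k d hk
  intro u hu w hw huw
  exact hf u w huw (by rw [Set.mem_preimage, Set.mem_singleton_iff] at hu hw; rw [hu, hw])

/-! ### Lower bound: Hamming graphs -/

/-- The Hamming graph on the functions `ι → Fin q`. -/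
def hamming (ι : Type) [Fintype ι] (q : ℕ) : SimpleGraph (ι → Fin q) where
  Adj x y := hammingDist x y = 1
  symm := ⟨fun x y h => by rw [hammingDist_comm]; exact h⟩
  loopless := ⟨fun x h => by rw [hammingDist_self] at h; exact absurd h (by norm_num)⟩

section Ham

variable {ι : Type} [Fintype ι] [DecidableEq ι] {q : ℕ}

lemma ham_le_length (x y : ι → Fin q) (p : (hamming ι q).Walk x y) :
    hammingDist x y ≤ p.length := by
  induction p with
  | nil => simp
  | cons h p ih =>
    rename_i u v w
    rw [SimpleGraph.Walk.length_cons]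
    have h1 : hammingDist u v = 1 := h
    have := hammingDist_triangle u v w
    omega

lemma exists_ham_walk (x y : ι → Fin q) :
    ∃ p : (hamming ι q).Walk x y, p.length = hammingDist x y := by
  obtain ⟨n, hn⟩ : ∃ n, hammingDist x y = n := ⟨_, rfl⟩
  induction n generalizing x with
  | zero =>
    have : x = y := hammingDist_eq_zero.mp hn
    subst this
    exact ⟨SimpleGraph.Walk.nil, by simp⟩
  | succ n ih =>
    have hne : x ≠ y := by
      rintro rfl
      simp at hn
    obtain ⟨i, hi⟩ := Function.ne_iff.mp hne
    set x' := Function.update x i (y i) with hx'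
    have h1 : hammingDist x x' = 1 := by
      unfold hammingDist
      rw [Finset.card_eq_one]
      refine ⟨i, ?_⟩
      ext j
      simp only [Finset.mem_filter, Finset.mem_univ, true_and, Finset.mem_singleton]
      constructor
      · intro h
        by_contra hji
        apply h
        rw [hx', Function.update_of_ne hji]
      · rintro rfl
        rw [hx', Function.update_self]
        exact hi
    have h2 : hammingDist x' y = n := by
      have h3 : (Finset.univ.filter fun j => x j ≠ y j) =
          insert i (Finset.univ.filter fun j => x' j ≠ y j) := by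
        ext j
        simp only [Finset.mem_filter, Finset.mem_univ, true_and, Finset.mem_insert]
        by_cases hji : j = i
        · subst hji
          simp [hi]
        · rw [hx', Function.update_of_ne hji]
          simp [hji]
      have h4 : i ∉ (Finset.univ.filter fun j => x' j ≠ y j) := by
        simp [hx']
      have h5 : (Finset.univ.filter fun j => x j ≠ y j).card = n + 1 := hn
      rw [h3, Finset.card_insert_of_notMem h4] at h5
      have : (Finset.univ.filter fun j => x' j ≠ y j).card = n := by omega
      exact this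
    obtain ⟨p, hp⟩ := ih x' h2
    refine ⟨SimpleGraph.Walk.cons (show (hamming ι q).Adj x x' from h1) p, ?_⟩
    rw [SimpleGraph.Walk.length_cons, hp, h2]
    omega

lemma ham_dist (x y : ι → Fin q) : (hamming ι q).dist x y = hammingDist x y := by
  obtain ⟨p, hp⟩ := exists_ham_walk x y
  apply le_antisymm
  · rw [← hp]
    exact SimpleGraph.dist_le p
  · have hr : (hamming ι q).Reachable x y := ⟨p⟩
    obtain ⟨p', hp'⟩ := hr.exists_walk_length_eq_dist
    rw [← hp']
    exact ham_le_length x y p'

lemma ham_degree (x : ι → Fin (q + 1)) :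
    ((hamming ι (q + 1)).neighborSet x).ncard ≤ Fintype.card ι * q := by
  classical
  have hsub : (hamming ι (q + 1)).neighborSet x ⊆
      ((Finset.univ.biUnion fun i : ι =>
        ((Finset.univ : Finset (Fin (q + 1))).erase (x i)).image
          (fun a => Function.update x i a) : Finset (ι → Fin (q + 1))) : Set _) := by
    intro y hy
    have h1 : hammingDist x y = 1 := hy
    unfold hammingDist at h1
    rw [Finset.card_eq_one] at h1
    obtain ⟨i, hi⟩ := h1
    simp only [Finset.coe_biUnion, Set.mem_iUnion, Finset.mem_coe, Finset.mem_image,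
      Finset.mem_erase, Finset.mem_univ, and_true, true_and]
    have hxi : x i ≠ y i := by
      have : i ∈ (Finset.univ.filter fun j => x j ≠ y j) := by rw [hi]; simp
      simpa using this
    refine ⟨i, trivial, y i, hxi.symm, ?_⟩
    funext j
    by_cases hji : j = i
    · subst hji
      rw [Function.update_self]
    · rw [Function.update_of_ne hji]
      by_contra hcon
      have : j ∈ (Finset.univ.filter fun j => x j ≠ y j) := by simpa using hcon
      rw [hi, Finset.mem_singleton] at this
      exact hji this
  calc ((hamming ι (q + 1)).neighborSet x).ncard ≤ _ := Set.ncard_le_ncard hsub (Set.toFinite _)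
    _ = _ := Set.ncard_coe_finset _
    _ ≤ ∑ i : ι, (((Finset.univ : Finset (Fin (q + 1))).erase (x i)).image
          (fun a => Function.update x i a)).card := Finset.card_biUnion_le
    _ ≤ ∑ _i : ι, q := by
        apply Finset.sum_le_sum
        intro i _
        refine le_trans Finset.card_image_le ?_
        rw [Finset.card_erase_of_mem (Finset.mem_univ _)]
        simp
    _ = _ := by simp

end Ham

section Blocks

variable {r m q : ℕ}

/-- `x` and `y` agree outside the block `j`. -/
def Off (j : Fin r) (x y : Fin r × Fin m → Fin q) : Prop := ∀ b : Fin r, b ≠ j → ∀ i, x (b, i) = y (b, i)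

/-- The points of `S` which have another point of `S` in the same line of direction `j`. -/
def next (j : Fin r) (S : Set (Fin r × Fin m → Fin q)) : Set (Fin r × Fin m → Fin q) :=
  {x | x ∈ S ∧ ∃ y ∈ S, y ≠ x ∧ Off j x y}

lemma next_sub (j : Fin r) (S : Set (Fin r × Fin m → Fin q)) : next j S ⊆ S := fun _ h => h.1

/-- At most `q ^ (m (r - 1))` points are lost. -/
lemma next_card (j : Fin r) (S : Set (Fin r × Fin m → Fin q)) :
    (S \ next j S).ncard ≤ q ^ (m * (r - 1)) := by
  classical
  set g : (Fin r × Fin m → Fin q) → ({b : Fin r // b ≠ j} × Fin m → Fin q) :=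
    fun x t => x (t.1.1, t.2) with hg
  have hinj : Set.InjOn g (S \ next j S) := by
    rintro x ⟨hxS, hx⟩ y ⟨hyS, _⟩ hxy
    by_contra hne
    apply hx
    refine ⟨hxS, y, hyS, fun h => hne h.symm, ?_⟩
    intro b hb i
    exact congrFun hxy (⟨b, hb⟩, i)
  have h1 : (S \ next j S).ncard ≤ (Set.univ : Set ({b : Fin r // b ≠ j} × Fin m → Fin q)).ncard :=
    Set.ncard_le_ncard_of_injOn g (fun _ _ => Set.mem_univ _) hinj (Set.toFinite _)
  refine le_trans h1 (le_of_eq ?_)
  rw [Set.ncard_univ, Nat.card_eq_fintype_card]
  simp only [Fintype.card_pi, Fintype.card_fin, Finset.prod_const, Finset.card_univ,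
    Fintype.card_prod]
  congr 1
  rw [Fintype.card_subtype_compl]
  simp [mul_comm]

/-- `chainSet S j`: points of `S` from which one can move inside `S` in the directions
`j, j + 1, …, r - 1` in turn. -/
def chainSet (S : Set (Fin r × Fin m → Fin q)) : ℕ → Set (Fin r × Fin m → Fin q)
  | 0 => S
  | t + 1 => if h : r - 1 - t < r then next ⟨r - 1 - t, h⟩ (chainSet S t) else ∅

lemma chainSet_card (hr : 0 < r) (S : Set (Fin r × Fin m → Fin q)) (t : ℕ) :
    S.ncard ≤ (chainSet S t).ncard + t * q ^ (m * (r - 1)) := by
  induction t with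
  | zero => simp [chainSet]
  | succ t ih =>
    have h : r - 1 - t < r := by omega
    have e : chainSet S (t + 1) = next ⟨r - 1 - t, h⟩ (chainSet S t) := by
      rw [chainSet, dif_pos h]
    have h1 : (chainSet S t).ncard ≤
        (chainSet S (t + 1)).ncard + (chainSet S t \ chainSet S (t + 1)).ncard := by
      rw [← Set.ncard_inter_add_ncard_sdiff_eq_ncard (chainSet S t) (chainSet S (t + 1))
        (Set.toFinite _)]
      gcongr
      · exact Set.toFinite _
      · exact Set.inter_subset_right
    have h2 : (chainSet S t \ chainSet S (t + 1)).ncard ≤ q ^ (m * (r - 1)) := by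
      rw [e]
      exact next_card _ _
    calc S.ncard ≤ (chainSet S t).ncard + t * q ^ (m * (r - 1)) := ih
      _ ≤ ((chainSet S (t + 1)).ncard + q ^ (m * (r - 1))) + t * q ^ (m * (r - 1)) := by
          gcongr
          omega
      _ = _ := by ring

lemma chainSet_sub (S : Set (Fin r × Fin m → Fin q)) (t : ℕ) : chainSet S t ⊆ S := by
  induction t with
  | zero => exact subset_rfl
  | succ t ih =>
    rw [chainSet]
    split_ifs with h
    · exact (next_sub _ _).trans ih
    · exact Set.empty_subset _

/-- From a point of `chainSet S t` there is a shortest walk of length at most `t m` through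
`t + 1` points of `S`, which only changes the last `t` blocks. -/
lemma chain_walk (hr : 0 < r) (S : Set (Fin r × Fin m → Fin q)) (t : ℕ) (ht : t ≤ r)
    (x : Fin r × Fin m → Fin q) (hx : x ∈ chainSet S t) :
    ∃ (y : Fin r × Fin m → Fin q) (p : (hamming (Fin r × Fin m) q).Walk x y),
      p.length = hammingDist x y ∧ p.length ≤ t * m ∧
      (∀ b : Fin r, (b : ℕ) < r - t → ∀ i, x (b, i) = y (b, i)) ∧
      t + 1 ≤ {z | z ∈ p.support ∧ z ∈ S}.ncard := by
  classical
  induction t generalizing x with
  | zero =>
    refine ⟨x, SimpleGraph.Walk.nil, by simp, by simp, fun _ _ _ => rfl, ?_⟩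
    have : {z | z ∈ (SimpleGraph.Walk.nil : (hamming (Fin r × Fin m) q).Walk x x).support ∧
        z ∈ S} = {x} := by
      ext z
      simp only [SimpleGraph.Walk.support_nil, List.mem_singleton, Set.mem_ofPred_eq,
        Set.mem_singleton_iff]
      constructor
      · exact fun h => h.1
      · rintro rfl
        exact ⟨rfl, hx⟩
    rw [this, Set.ncard_singleton]
  | succ t ih =>
    have h : r - 1 - t < r := by omega
    rw [chainSet, dif_pos h] at hx
    obtain ⟨hxS, x', hx', hne, hoff⟩ := hx
    obtain ⟨y, p, hp, hpl, hag, hcard⟩ := ih (by omega) x' hx'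
    obtain ⟨p0, hp0⟩ := exists_ham_walk x x'
    have hsum : hammingDist x y = hammingDist x x' + hammingDist x' y := by
      unfold hammingDist
      rw [← Finset.card_union_of_disjoint]
      · congr 1
        ext ⟨b, i⟩
        simp only [Finset.mem_filter, Finset.mem_univ, true_and, Finset.mem_union]
        by_cases hb : b = ⟨r - 1 - t, h⟩
        · have h1 : x' (b, i) = y (b, i) := hag b (by rw [hb]; simp; omega) i
          rw [h1]
          simp
        · have h1 : x (b, i) = x' (b, i) := hoff b hb i
          rw [h1]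
          simp
      · rw [Finset.disjoint_left]
        rintro ⟨b, i⟩ h1 h2
        simp only [Finset.mem_filter, Finset.mem_univ, true_and] at h1 h2
        by_cases hb : b = ⟨r - 1 - t, h⟩
        · exact h2 (hag b (by rw [hb]; simp; omega) i)
        · exact h1 (hoff b hb i)
    have hlen0 : p0.length ≤ m := by
      rw [hp0]
      unfold hammingDist
      have : (Finset.univ.filter fun s : Fin r × Fin m => x s ≠ x' s) ⊆
          (Finset.univ : Finset (Fin m)).image (fun i => ((⟨r - 1 - t, h⟩ : Fin r), i)) := by
        rintro ⟨b, i⟩ hs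
        simp only [Finset.mem_filter, Finset.mem_univ, true_and] at hs
        rw [Finset.mem_image]
        by_cases hb : b = ⟨r - 1 - t, h⟩
        · exact ⟨i, Finset.mem_univ _, by rw [hb]⟩
        · exact absurd (hoff b hb i) hs
      calc _ ≤ _ := Finset.card_le_card this
        _ ≤ _ := Finset.card_image_le
        _ = m := by simp
    have hlen : (p0.append p).length = hammingDist x y := by
      rw [SimpleGraph.Walk.length_append, hp0, hp, hsum]
    have hpath : (p0.append p).IsPath := by
      apply SimpleGraph.Walk.isPath_of_length_eq_dist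
      rw [hlen, ham_dist]
    have hx_notin : x ∉ p.support := by
      intro hcon
      have h1 : p0.length ≠ 0 := by
        rw [hp0]
        intro h0
        exact hne (hammingDist_eq_zero.mp h0).symm
      cases p0 with
      | nil => exact h1 rfl
      | cons hadj q0 =>
        rw [SimpleGraph.Walk.cons_append, SimpleGraph.Walk.cons_isPath_iff] at hpath
        apply hpath.2
        rw [SimpleGraph.Walk.mem_support_append_iff]
        exact Or.inr hcon
    refine ⟨y, p0.append p, hlen, ?_, ?_, ?_⟩
    · rw [SimpleGraph.Walk.length_append, add_mul]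
      omega
    · intro b hb i
      have h1 : x (b, i) = x' (b, i) := by
        apply hoff
        rintro rfl
        simp at hb
        omega
      rw [h1]
      exact hag b (by omega) i
    · have hsub : insert x {z | z ∈ p.support ∧ z ∈ S} ⊆
          {z | z ∈ (p0.append p).support ∧ z ∈ S} := by
        intro z hz
        rw [Set.mem_insert_iff] at hz
        rcases hz with rfl | hz
        · exact ⟨SimpleGraph.Walk.start_mem_support _, chainSet_sub S t hxS⟩
        · refine ⟨?_, hz.2⟩
          rw [SimpleGraph.Walk.mem_support_append_iff]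
          exact Or.inr hz.1
      calc t + 1 + 1 ≤ {z | z ∈ p.support ∧ z ∈ S}.ncard + 1 := by omega
        _ = (insert x {z | z ∈ p.support ∧ z ∈ S}).ncard := by
            rw [Set.ncard_insert_of_notMem (fun h => hx_notin h.1) (Set.toFinite _)]
        _ ≤ _ := Set.ncard_le_ncard hsub (Set.toFinite _)

/-- A `k,d`-independent set in the Hamming graph is small. -/
lemma indep_card (k d : ℕ) (hk : 2 ≤ k) (hr : r = k - 1) (hm : m = d / (k - 1))
    (S : Set (Fin r × Fin m → Fin q)) (hS : KDIndep (hamming (Fin r × Fin m) q) k d S) :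
    S.ncard ≤ r * q ^ (m * (r - 1)) := by
  by_contra hcon
  push Not at hcon
  have hr0 : 0 < r := by omega
  have h1 := chainSet_card hr0 S r
  have h2 : 0 < (chainSet S r).ncard := by omega
  obtain ⟨x, hx⟩ := (Set.ncard_pos (Set.toFinite _)).mp h2
  obtain ⟨y, p, hp, hpl, -, hcard⟩ := chain_walk hr0 S r le_rfl x hx
  have h3 := hS x y p (by rw [ham_dist, hp]) (by
    refine le_trans hpl ?_
    rw [hr, hm]
    exact Nat.mul_div_le d (k - 1))
  omega

lemma ham_proper_card (k d : ℕ) (hk : 2 ≤ k) (hr : r = k - 1) (hm : m = d / (k - 1)) (c : ℕ)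
    (hq : 0 < q) (f : (Fin r × Fin m → Fin q) → Fin c)
    (hf : KDProper (hamming (Fin r × Fin m) q) k d f) : q ^ m ≤ c * r := by
  classical
  have h1 : Fintype.card (Fin r × Fin m → Fin q) = q ^ (m * r) := by
    simp [mul_comm]
  have h2 : Fintype.card (Fin r × Fin m → Fin q) ≤ c * (r * q ^ (m * (r - 1))) := by
    calc Fintype.card (Fin r × Fin m → Fin q)
        = ∑ i : Fin c, (Finset.univ.filter fun x => f x = i).card := by
          rw [← Finset.card_univ]
          exact Finset.card_eq_sum_card_fiberwise (fun _ _ => Finset.mem_coe.mpr (Finset.mem_univ _))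
      _ ≤ ∑ _i : Fin c, r * q ^ (m * (r - 1)) := by
          apply Finset.sum_le_sum
          intro i _
          have h3 := indep_card k d hk hr hm _ (hf i)
          rw [← Set.ncard_coe_finset]
          refine le_trans (le_of_eq ?_) h3
          congr 1
          ext x
          simp
      _ = _ := by simp
  rw [h1] at h2
  have h3 : q ^ (m * r) = q ^ m * q ^ (m * (r - 1)) := by
    rw [← pow_add]
    congr 1
    have : r = (r - 1) + 1 := by omega
    conv_lhs => rw [this, mul_add, mul_one]
    ring
  rw [h3, ← mul_assoc] at h2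
  exact Nat.le_of_mul_le_mul_right h2 (by positivity)

end Blocks

/-! ### Transport to `Fin n` -/

lemma KDIndep_iso {W : Type} (G : SimpleGraph V) (H : SimpleGraph W) (e : G ≃g H) (k d : ℕ)
    (S : Set W) (h : KDIndep G k d (e ⁻¹' S)) : KDIndep H k d S := by
  intro u v p hp hpd
  have h1 := h (e.symm u) (e.symm v) (p.map e.symm.toHom) (by
    rw [SimpleGraph.Walk.length_map, hp]
    apply le_antisymm
    · obtain hr : H.Reachable u v := ⟨p⟩
      have hr' : G.Reachable (e.symm u) (e.symm v) := ⟨p.map e.symm.toHom⟩
      obtain ⟨w, hw⟩ := hr'.exists_walk_length_eq_dist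
      rw [← hw]
      have := SimpleGraph.dist_le ((w.map e.toHom).copy (e.apply_symm_apply u) (e.apply_symm_apply v))
      simpa using this
    · have := SimpleGraph.dist_le (p.map e.symm.toHom)
      rw [SimpleGraph.Walk.length_map, hp] at this
      exact this) (by rw [SimpleGraph.Walk.length_map]; exact hpd)
  refine lt_of_le_of_lt (le_of_eq ?_) h1
  have h2 : {x | x ∈ (p.map e.symm.toHom).support ∧ x ∈ e ⁻¹' S} =
      e.symm '' {x | x ∈ p.support ∧ x ∈ S} := by
    ext x
    simp only [SimpleGraph.Walk.support_map, List.mem_map, Set.mem_preimage, Set.mem_ofPred_eq,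
      Set.mem_image]
    constructor
    · rintro ⟨⟨y, hy, hyx⟩, hx⟩
      refine ⟨y, ⟨hy, ?_⟩, hyx⟩
      have : e x = y := by
        rw [← hyx]
        exact e.apply_symm_apply y
      rwa [this] at hx
    · rintro ⟨y, ⟨hy, hyS⟩, rfl⟩
      refine ⟨⟨y, hy, rfl⟩, ?_⟩
      rw [RelIso.apply_symm_apply]
      exact hyS
  rw [h2, Set.ncard_image_of_injective _ e.symm.injective]

lemma chi_attained [Fintype V] (G : SimpleGraph V) (k d : ℕ) (hk : 2 ≤ k) :
    ∃ f : V → Fin (chi G k d), KDProper G k d f := by
  classical
  have : chi G k d ∈ {c : ℕ | ∃ f : V → Fin c, KDProper G k d f} := by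
    apply Nat.sInf_mem
    refine ⟨Fintype.card V, Fintype.equivFin V, ?_⟩
    intro i u v p _ _
    have h1 : {x | x ∈ p.support ∧ x ∈ (Fintype.equivFin V) ⁻¹' {i}} ⊆
        {(Fintype.equivFin V).symm i} := by
      rintro x ⟨_, hx⟩
      rw [Set.mem_preimage, Set.mem_singleton_iff] at hx
      rw [Set.mem_singleton_iff, ← hx, Equiv.symm_apply_apply]
    have h2 := Set.ncard_le_ncard h1 (Set.toFinite _)
    rw [Set.ncard_singleton] at h2
    omega
  exact this

lemma bdd (k d Δ : ℕ) (hk : 2 ≤ k) : (Δ + 1) ^ (d / (k - 1)) ∈ upperBounds (values k d Δ) := by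
  rintro c ⟨n, G, hG, rfl⟩
  exact chi_le G k d Δ hk hG

lemma values_nonempty (k d Δ : ℕ) : (values k d Δ).Nonempty := by
  refine ⟨chi (⊥ : SimpleGraph (Fin (0 + 1))) k d, 0, ⊥, ?_, rfl⟩
  intro v
  have : (⊥ : SimpleGraph (Fin (0 + 1))).neighborSet v = ∅ := by
    ext w
    simp
  rw [this, Set.ncard_empty]
  exact Nat.zero_le _

lemma lower (k d Δ : ℕ) (hk : 3 ≤ k) (hkd : k ≤ d + 1) :
    Δ ^ (d / (k - 1)) ≤ ((k - 1) * (d / (k - 1))) ^ (d / (k - 1)) * (k - 1) * F k d Δ := by
  classical
  obtain ⟨r, hr⟩ : ∃ r, r = k - 1 := ⟨_, rfl⟩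
  obtain ⟨m, hm⟩ : ∃ m, m = d / (k - 1) := ⟨_, rfl⟩
  have hr0 : 0 < r := by omega
  have hm0 : 0 < m := by
    rw [hm]
    exact Nat.div_pos (by omega) (by omega)
  have hN : 0 < r * m := Nat.mul_pos hr0 hm0
  obtain ⟨a, ha⟩ : ∃ a, a = Δ / (r * m) := ⟨_, rfl⟩
  -- the Hamming graph, transported
  let W := Fin r × Fin m → Fin (a + 1)
  obtain ⟨n, hn⟩ : ∃ n, Fintype.card W = n + 1 := by
    have : 0 < Fintype.card W := Fintype.card_pos
    exact ⟨Fintype.card W - 1, by omega⟩
  let e : W ≃ Fin (n + 1) := (Fintype.equivFin W).trans (finCongr hn)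
  let G : SimpleGraph (Fin (n + 1)) := (hamming (Fin r × Fin m) (a + 1)).map e.toEmbedding
  let φ : hamming (Fin r × Fin m) (a + 1) ≃g G := SimpleGraph.Iso.map e _
  have hdeg : ∀ v, (G.neighborSet v).ncard ≤ Δ := by
    intro v
    have h1 : G.neighborSet v = φ '' ((hamming (Fin r × Fin m) (a + 1)).neighborSet (φ.symm v)) := by
      ext w
      simp only [SimpleGraph.mem_neighborSet, Set.mem_image]
      constructor
      · intro h
        refine ⟨φ.symm w, ?_, φ.apply_symm_apply w⟩
        rw [← φ.map_adj_iff, φ.apply_symm_apply, φ.apply_symm_apply]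
        exact h
      · rintro ⟨x, hx, rfl⟩
        rw [← φ.map_adj_iff, φ.apply_symm_apply] at hx
        exact hx
    rw [h1, Set.ncard_image_of_injective _ φ.injective]
    refine le_trans (ham_degree _) ?_
    rw [Fintype.card_prod, Fintype.card_fin, Fintype.card_fin, ha]
    exact Nat.mul_div_le Δ (r * m)
  have hF : chi G k d ≤ F k d Δ := by
    apply le_csSup ⟨_, bdd k d Δ (by omega)⟩
    exact ⟨n, G, hdeg, rfl⟩
  obtain ⟨f, hf⟩ := chi_attained G k d (by omega)
  have h1 : (a + 1) ^ m ≤ chi G k d * r := by
    apply ham_proper_card k d (by omega) hr hm (chi G k d) (Nat.succ_pos a) (fun x => f (φ x))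
    intro i
    apply KDIndep_iso G _ φ.symm k d
    have h2 := hf i
    have h3 : φ.symm ⁻¹' ((fun x => f (φ x)) ⁻¹' {i}) = f ⁻¹' {i} := by
      ext x
      simp only [Set.mem_preimage, Set.mem_singleton_iff]
      rw [φ.apply_symm_apply]
    rw [h3]
    exact h2
  have h4 : Δ ≤ (r * m) * (a + 1) := by
    rw [ha]
    exact (Nat.lt_mul_div_succ Δ hN).le
  rw [← hm, ← hr]
  calc Δ ^ m ≤ ((r * m) * (a + 1)) ^ m := Nat.pow_le_pow_left h4 m
    _ = (r * m) ^ m * (a + 1) ^ m := mul_pow _ _ _
    _ ≤ (r * m) ^ m * (chi G k d * r) := Nat.mul_le_mul_left _ h1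
    _ ≤ (r * m) ^ m * (F k d Δ * r) := Nat.mul_le_mul_left _ (Nat.mul_le_mul_right _ hF)
    _ = _ := by ring

/-- For `3 ≤ k ≤ d + 1` the largest `k,d`-chromatic number `F k d Δ` of a finite graph of maximum
degree at most `Δ` exists for every `Δ` and has order of magnitude `Δ ^ ⌊d / (k - 1)⌋` as
`Δ → ∞`. -/
theorem result (k d : ℕ) (hk : 3 ≤ k) (hkd : k ≤ d + 1) :
    (∀ Δ, IsGreatest (values k d Δ) (F k d Δ)) ∧
      (fun Δ : ℕ => (F k d Δ : ℝ)) =Θ[atTop] fun Δ : ℕ => (Δ : ℝ) ^ (d / (k - 1)) := by
  refine ⟨fun Δ => ⟨Nat.sSup_mem (values_nonempty k d Δ) ⟨_, bdd k d Δ (by omega)⟩,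
    fun c hc => le_csSup ⟨_, bdd k d Δ (by omega)⟩ hc⟩, ?_, ?_⟩
  · apply IsBigO.of_bound ((2 : ℝ) ^ (d / (k - 1)))
    filter_upwards [eventually_ge_atTop 1] with Δ hΔ
    rw [Real.norm_of_nonneg (by positivity), Real.norm_of_nonneg (by positivity)]
    have h1 : F k d Δ ≤ (Δ + 1) ^ (d / (k - 1)) :=
      bdd k d Δ (by omega) (Nat.sSup_mem (values_nonempty k d Δ) ⟨_, bdd k d Δ (by omega)⟩)
    have h2 : F k d Δ ≤ (2 * Δ) ^ (d / (k - 1)) :=
      le_trans h1 (Nat.pow_le_pow_left (by omega) _)
    rw [mul_pow] at h2
    exact_mod_cast h2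
  · apply IsBigO.of_bound (((((k - 1) * (d / (k - 1))) ^ (d / (k - 1)) * (k - 1) : ℕ)) : ℝ)
    filter_upwards with Δ
    rw [Real.norm_of_nonneg (by positivity), Real.norm_of_nonneg (by positivity)]
    exact_mod_cast lower k d Δ hk hkd

end Pool.Agent.Results.MP_70a435_co.OrderOfMagnitude
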